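import Pool.Agent.Lib.MP_84d657_an.Main

/-!
Born-Infeld minimizers with sources in `L ^ 1 ∩ L ^ (m - 1)` (locally) have no light segments.
-/

open Set MeasureTheory
open scoped ENNReal

namespace Pool.Agent.Results.MP_84d657_an.NoLightSegments

open Pool.Agent.Lib.MP_84d657_an

theorem result (m : ℕ) (hm : 2 ≤ m) (Ω : Set (Euc m)) (hΩ : IsOpen Ω) (_hΩc : IsConnected Ω)
    (hΩb : Bornology.IsBounded Ω) (φ : Euc m → ℝ) (hφ : SpacelikeData Ω φ) (ρ : Euc m → ℝ)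
    (hρ₁ : IntegrableOn ρ Ω)
    (hρ : ∀ K ⊆ Ω, IsCompact K → MemLp ρ ((m - 1 : ℕ) : ℝ≥0∞) (volume.restrict K))
    (u : Euc m → ℝ) (G : Euc m → Euc m) (hu : IsMinimizer Ω φ ρ u G)
    (x y : Euc m) (hxy : x ≠ y) (hseg : segment ℝ x y ⊆ Ω) :
    |u x - u y| < ‖x - y‖ := by
  obtain ⟨k, rfl⟩ : ∃ k, m = k + 1 + 1 := ⟨m - 2, by omega⟩
  have hρ' : ∀ K ⊆ Ω, IsCompact K → IntegrableOn (fun x => |ρ x| ^ (k + 1)) K := by
    intro K hK hKc
    have h := (hρ K hK hKc).integrable_norm_pow (p := k + 1) (by omega)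
    simpa [IntegrableOn] using h
  have hseg' : segment ℝ y x ⊆ Ω := by rwa [segment_symm]
  have h1 := hu.1.abs_sub_le hΩ hseg'
  have h2 := not_light hΩ hΩb hφ hρ₁ hρ' hu hxy hseg
  have h3 := not_light hΩ hΩb hφ hρ₁ hρ' hu hxy.symm hseg'
  rw [norm_sub_rev] at h2
  refine lt_of_le_of_ne h1 fun h => ?_
  rcases abs_cases (u x - u y) with h4 | h4
  · exact h3 (by linarith [h4.1])
  · exact h2 (by linarith [h4.1])

end Pool.Agent.Results.MP_84d657_an.NoLightSegments
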